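import Mathlib

set_option autoImplicit false

namespace Pool.Agent.Results.MP_8dea01_co.OrderKnowledge

open Filter Topology

/-! ### The model (labels: false = 0, true = 1)

The box holds β objects.  At every step one object is removed and its label is written as the
next output letter; then an object carrying the next input letter enters. -/

/-- Knowledge `O⁺`, no timer, no look-ahead.  The box content is the list of labels sorted by
entrance time (oldest first), `m` is the list of the last `π` outputs (latest first, shorter
during the first steps).  The rule names the position of the removed object.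
`runPlus π rule c m xs` is the output word for the input word `xs`. -/
def runPlus (π : ℕ) (rule : List Bool → List Bool → ℕ) :
    List Bool → List Bool → List Bool → List Bool
  | _, _, [] => []
  | c, m, x :: xs =>
      c.getD (rule c m) false ::
        runPlus π rule (c.eraseIdx (rule c m) ++ [x])
          ((c.getD (rule c m) false :: m).take π) xs

/-- The rule always names one of the β objects in the box. -/
def ValidPlus (β : ℕ) (rule : List Bool → List Bool → ℕ) : Prop :=
  ∀ c m : List Bool, c.length = β → rule c m < β

/-- All outputs of length `n`, over all initial contents and all inputs of length `n`. -/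
def outputsPlus (π β n : ℕ) (rule : List Bool → List Bool → ℕ) : Set (List Bool) :=
  {w | ∃ c xs : List Bool, c.length = β ∧ xs.length = n ∧ w = runPlus π rule c [] xs}

/-- `N^n` for `(T⁻, O⁺)`, memory `π`, box size `β`, no look-ahead. -/
noncomputable def NPlus (π β n : ℕ) : ℕ :=
  sInf {k | ∃ rule, ValidPlus β rule ∧ k = (outputsPlus π β n rule).ncard}

/-- Knowledge `O⁻`, no timer, no look-ahead.  The organizer sees only the state
`s = (s(0), s(1))` and the list `m` of the last `π` outputs.  The rule names the output label. -/
def runMinus (π : ℕ) (rule : (Bool → ℕ) → List Bool → Bool) :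
    (Bool → ℕ) → List Bool → List Bool → List Bool
  | _, _, [] => []
  | s, m, x :: xs =>
      rule s m ::
        runMinus π rule
          (fun i => s i - (if i = rule s m then 1 else 0) + (if i = x then 1 else 0))
          ((rule s m :: m).take π) xs

/-- The rule always names a label that is present in the box. -/
def ValidMinus (β : ℕ) (rule : (Bool → ℕ) → List Bool → Bool) : Prop :=
  ∀ (s : Bool → ℕ) (m : List Bool), s false + s true = β → 0 < s (rule s m)

/-- All outputs of length `n`, over all initial states and all inputs of length `n`. -/
def outputsMinus (π β n : ℕ) (rule : (Bool → ℕ) → List Bool → Bool) : Set (List Bool) :=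
  {w | ∃ (s : Bool → ℕ) (xs : List Bool),
    s false + s true = β ∧ xs.length = n ∧ w = runMinus π rule s [] xs}

/-- `N^n` for `(T⁻, O⁻)`, memory `π`, box size `β`, no look-ahead. -/
noncomputable def NMinus (π β n : ℕ) : ℕ :=
  sInf {k | ∃ rule, ValidMinus β rule ∧ k = (outputsMinus π β n rule).ncard}

/-! ### Transducers -/

section Transducer
variable {σ : Type} (out : σ → Bool) (nxt : σ → Bool → σ)

def run : σ → List Bool → List Bool
  | _, [] => []
  | s, x :: xs => out s :: run (nxt s x) xs

def after : σ → List Bool → σ
  | s, [] => s
  | s, x :: xs => after (nxt s x) xs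

def lang : ℕ → σ → Finset (List Bool)
  | 0, _ => {[]}
  | n + 1, s => (lang n (nxt s false) ∪ lang n (nxt s true)).image (fun w => out s :: w)

lemma mem_lang (n : ℕ) (s : σ) (w : List Bool) :
    w ∈ lang out nxt n s ↔ ∃ xs : List Bool, xs.length = n ∧ w = run out nxt s xs := by
  induction n generalizing s w with
  | zero =>
    simp only [lang, Finset.mem_singleton]
    constructor
    · rintro rfl; exact ⟨[], rfl, rfl⟩
    · rintro ⟨xs, hx, rfl⟩
      rw [List.length_eq_zero_iff] at hx
      subst hx; rfl
  | succ n ih =>
    simp only [lang, Finset.mem_image, Finset.mem_union]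
    constructor
    · rintro ⟨v, hv, rfl⟩
      rcases hv with hv | hv
      · obtain ⟨xs, h1, h2⟩ := (ih _ _).mp hv
        exact ⟨false :: xs, by simp [h1], by rw [run, ← h2]⟩
      · obtain ⟨xs, h1, h2⟩ := (ih _ _).mp hv
        exact ⟨true :: xs, by simp [h1], by rw [run, ← h2]⟩
    · rintro ⟨xs, hx, rfl⟩
      match xs, hx with
      | x :: xs, hx =>
        refine ⟨run out nxt (nxt s x) xs, ?_, rfl⟩
        have hx' : xs.length = n := by simpa using hx
        cases x
        · left; exact (ih _ _).mpr ⟨xs, hx', rfl⟩
        · right; exact (ih _ _).mpr ⟨xs, hx', rfl⟩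

lemma length_of_mem_lang {n : ℕ} {s : σ} {w : List Bool} (h : w ∈ lang out nxt n s) :
    w.length = n := by
  induction n generalizing s w with
  | zero => simp only [lang, Finset.mem_singleton] at h; subst h; rfl
  | succ n ih =>
    simp only [lang, Finset.mem_image, Finset.mem_union] at h
    obtain ⟨v, hv, rfl⟩ := h
    rcases hv with hv | hv <;> simp [ih hv]

lemma head_of_mem_lang {n : ℕ} {s : σ} {w : List Bool} (h : w ∈ lang out nxt n s) :
    w.head? ≠ some (!(out s)) := by
  cases n with
  | zero => simp only [lang, Finset.mem_singleton] at h; subst h; simp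
  | succ n =>
    simp only [lang, Finset.mem_image] at h
    obtain ⟨v, _, rfl⟩ := h
    simp

lemma lang_nonempty (n : ℕ) (s : σ) : (lang out nxt n s).Nonempty := by
  induction n generalizing s with
  | zero => exact ⟨[], by simp [lang]⟩
  | succ n ih =>
    obtain ⟨w, hw⟩ := ih (nxt s false)
    exact ⟨out s :: w, by simp only [lang, Finset.mem_image, Finset.mem_union]; exact ⟨w, Or.inl hw, rfl⟩⟩

lemma one_le_card (n : ℕ) (s : σ) : 1 ≤ (lang out nxt n s).card :=
  Finset.card_pos.mpr (lang_nonempty out nxt n s)

lemma cons_mem_lang {n : ℕ} {s : σ} {w : List Bool} (x : Bool)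
    (h : w ∈ lang out nxt n (nxt s x)) : out s :: w ∈ lang out nxt (n + 1) s := by
  simp only [lang, Finset.mem_image, Finset.mem_union]
  refine ⟨w, ?_, rfl⟩
  cases x
  · exact Or.inl h
  · exact Or.inr h

lemma append_mem_lang (xs : List Bool) {n : ℕ} {s : σ} {v : List Bool}
    (h : v ∈ lang out nxt n (after nxt s xs)) :
    run out nxt s xs ++ v ∈ lang out nxt (xs.length + n) s := by
  induction xs generalizing s with
  | nil => simpa [run, after] using h
  | cons x xs ih =>
    rw [after] at h
    have h1 := cons_mem_lang out nxt x (ih h)
    rw [run, List.cons_append, List.length_cons]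
    have e : xs.length + 1 + n = xs.length + n + 1 := by ring
    rw [e]
    exact h1

lemma after_append (s : σ) (xs ys : List Bool) :
    after nxt s (xs ++ ys) = after nxt (after nxt s xs) ys := by
  induction xs generalizing s with
  | nil => rfl
  | cons x xs ih => simp only [List.cons_append, after, ih]

lemma run_append (s : σ) (xs ys : List Bool) :
    run out nxt s (xs ++ ys) = run out nxt s xs ++ run out nxt (after nxt s xs) ys := by
  induction xs generalizing s with
  | nil => rfl
  | cons x xs ih => simp only [List.cons_append, after, run, ih]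

lemma length_run (s : σ) (xs : List Bool) : (run out nxt s xs).length = xs.length := by
  induction xs generalizing s with
  | nil => rfl
  | cons x xs ih => simp only [run, List.length_cons, ih]

/-- A state that outputs `a` and is reproduced when it is fed `a`. -/
def Free (a : Bool) (s : σ) : Prop := out s = a ∧ nxt s a = s

lemma free_after {a : Bool} {s : σ} (h : Free out nxt a s) (k : ℕ) :
    after nxt s (List.replicate k a) = s ∧ run out nxt s (List.replicate k a) = List.replicate k a := by
  induction k with
  | zero => exact ⟨rfl, rfl⟩
  | succ k ih =>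
    rw [List.replicate_succ, after, run, h.2, h.1]
    exact ⟨ih.1, by rw [ih.2]⟩

end Transducer

/-! ### Counting words by their leading run -/

def lead (a : Bool) : List Bool → ℕ
  | [] => 0
  | b :: w => if b = a then lead a w + 1 else 0

lemma lead_replicate_append (a : Bool) (k : ℕ) (w : List Bool) :
    lead a (List.replicate k a ++ w) = k + lead a w := by
  induction k with
  | zero => simp
  | succ k ih => rw [List.replicate_succ, List.cons_append, lead, if_pos rfl, ih]; ring

lemma lead_append (a : Bool) (w v : List Bool) (hv : v.head? ≠ some a) :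
    lead a (w ++ v) = lead a w := by
  induction w with
  | nil =>
    cases v with
    | nil => rfl
    | cons b v =>
      have : b ≠ a := by simpa using hv
      simp [lead, this]
  | cons b w ih => rw [List.cons_append, lead, lead, ih]

lemma sum_card_le (a : Bool) (w : List Bool) (N : ℕ) (B : ℕ → Finset (List Bool))
    (S : Finset (List Bool))
    (hhead : ∀ i ≤ N, ∀ v ∈ B i, v.head? ≠ some a)
    (hmem : ∀ i ≤ N, ∀ v ∈ B i, List.replicate (N - i) a ++ (w ++ v) ∈ S) :
    ∑ i ∈ Finset.range (N + 1), (B i).card ≤ S.card := by
  rw [← Finset.card_sigma]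
  apply Finset.card_le_card_of_injOn (fun p => List.replicate (N - p.1) a ++ (w ++ p.2))
  · intro p hp
    rw [Finset.mem_coe, Finset.mem_sigma, Finset.mem_range] at hp
    exact hmem p.1 (by omega) p.2 hp.2
  · intro p hp q hq h
    rw [Finset.mem_coe, Finset.mem_sigma, Finset.mem_range] at hp hq
    have h1 : lead a (List.replicate (N - p.1) a ++ (w ++ p.2)) =
        lead a (List.replicate (N - q.1) a ++ (w ++ q.2)) := congrArg _ h
    rw [lead_replicate_append, lead_replicate_append,
      lead_append a w p.2 (hhead _ (by omega) _ hp.2),
      lead_append a w q.2 (hhead _ (by omega) _ hq.2)] at h1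
    have h2 : p.1 = q.1 := by omega
    obtain ⟨i, v⟩ := p
    obtain ⟨j, u⟩ := q
    simp only at h2 h
    subst h2
    have h3 := List.append_cancel_left (List.append_cancel_left h)
    subst h3
    rfl

/-! ### The two comparison sequences -/

/-- Lower comparison sequence, `ℓ = k + 1`. -/
def V (k : ℕ) : ℕ → ℕ
  | 0 => 1
  | n + 1 => if n ≤ k + 1 then 1 else V k n + V k (n - k)

/-- Upper comparison sequence, `ℓ = k + 1`. -/
def U (k : ℕ) : ℕ → ℕ
  | 0 => 1
  | n + 1 => U k n + U k (n - k)

lemma V_small (k n : ℕ) (h : n ≤ k + 2) : V k n = 1 := by
  cases n with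
  | zero => rw [V]
  | succ n => rw [V, if_pos (by omega)]

lemma V_rec (k n : ℕ) (h : k + 2 ≤ n) : V k (n + 1) = V k n + V k (n - k) := by
  rw [V, if_neg (by omega)]

lemma V_pos (k n : ℕ) : 1 ≤ V k n := by
  induction n with
  | zero => rw [V]
  | succ n ih =>
    rw [V]
    split_ifs
    · exact le_rfl
    · omega

lemma V_mono (k : ℕ) : Monotone (V k) := by
  apply monotone_nat_of_le_succ
  intro n
  by_cases h : k + 2 ≤ n
  · rw [V_rec k n h]; omega
  · rw [V_small k n (by omega), V_small k (n + 1) (by omega)]

lemma sum_V (k m : ℕ) : ∑ i ∈ Finset.range (m + 1), V k (i + 1) = V k (m + 1 + (k + 1)) := by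
  induction m with
  | zero => simp [V_small k 1 (by omega), V_small k (1 + (k + 1)) (by omega)]
  | succ m ih =>
    rw [Finset.sum_range_succ, ih]
    have e : m + 1 + 1 + (k + 1) = (m + 1 + (k + 1)) + 1 := by ring
    rw [e, V_rec k (m + 1 + (k + 1)) (by omega)]
    congr 2
    omega

/-! ### The box with known entrance order, no memory -/

section Plus
variable (g : List Bool → ℕ)

def outP (c : List Bool) : Bool := c.getD (g c) false
def nxtP (c : List Bool) (x : Bool) : List Bool := c.eraseIdx (g c) ++ [x]

lemma length_nxtP {β : ℕ} (hβ : 1 ≤ β) (hg : ∀ c : List Bool, c.length = β → g c < β)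
    (c : List Bool) (hc : c.length = β) (x : Bool) : (nxtP g c x).length = β := by
  rw [nxtP, List.length_append, List.length_eraseIdx_of_lt (by rw [hc]; exact hg c hc), hc]
  simp; omega

lemma run_eq_runPlus (rule : List Bool → List Bool → ℕ) (c xs : List Bool) :
    runPlus 0 rule c [] xs = run (outP fun c => rule c []) (nxtP fun c => rule c []) c xs := by
  induction xs generalizing c with
  | nil => rfl
  | cons x xs ih =>
    rw [runPlus, run, List.take_zero, ih]
    rfl

/-- deletion in the trailing constant block -/
lemma free_of_ge {β : ℕ} (u : List Bool) (j : ℕ) (x : Bool) (hlen : (u ++ List.replicate j x).length = β)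
    (hg : g (u ++ List.replicate j x) < β) (h : u.length ≤ g (u ++ List.replicate j x)) :
    Free (outP g) (nxtP g) x (u ++ List.replicate j x) := by
  have hj : g (u ++ List.replicate j x) - u.length < j := by
    rw [List.length_append, List.length_replicate] at hlen; omega
  constructor
  · rw [outP, List.getD_append_right _ _ _ _ h, List.getD_replicate _ hj]
  · rw [nxtP, List.eraseIdx_append_of_length_le h, List.eraseIdx_replicate, if_pos hj,
      List.append_assoc, ← List.replicate_succ']
    congr 2
    omega

lemma nxt_of_lt (u : List Bool) (j : ℕ) (x y : Bool) (h : g (u ++ List.replicate j x) < u.length) :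
    nxtP g (u ++ List.replicate j x) y =
      u.eraseIdx (g (u ++ List.replicate j x)) ++ (List.replicate j x ++ [y]) := by
  rw [nxtP, List.eraseIdx_append_of_lt_length h, List.append_assoc]

lemma length_afterP {β : ℕ} (hβ : 1 ≤ β) (hg : ∀ c : List Bool, c.length = β → g c < β)
    (xs c : List Bool) (hc : c.length = β) : (after (nxtP g) c xs).length = β := by
  induction xs generalizing c with
  | nil => exact hc
  | cons x xs ih => exact ih _ (length_nxtP g hβ hg c hc x)

lemma after_succ (c : List Bool) (j : ℕ) (x : Bool) :
    after (nxtP g) c (List.replicate (j + 1) x) =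
      nxtP g (after (nxtP g) c (List.replicate j x)) x := by
  rw [List.replicate_succ', after_append]
  rfl

lemma run_succ (c : List Bool) (j : ℕ) (x : Bool) :
    run (outP g) (nxtP g) c (List.replicate (j + 1) x) =
      run (outP g) (nxtP g) c (List.replicate j x) ++
        [outP g (after (nxtP g) c (List.replicate j x))] := by
  rw [List.replicate_succ', run_append]
  rfl

lemma transient (l : ℕ) (hg : ∀ c : List Bool, c.length = l + 1 → g c < l + 1)
    (c : List Bool) (hc : c.length = l + 1) (x : Bool) :
    (∃ t ≤ l, Free (outP g) (nxtP g) x (after (nxtP g) c (List.replicate t x))) ∨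
      (after (nxtP g) c (List.replicate l x) = (!x) :: List.replicate l x ∧
        g ((!x) :: List.replicate l x) = 0) := by
  have key : ∀ j ≤ l,
      (∃ t ≤ l, Free (outP g) (nxtP g) x (after (nxtP g) c (List.replicate t x))) ∨
      (∃ u : List Bool, u.length = l + 1 - j ∧
        after (nxtP g) c (List.replicate j x) = u ++ List.replicate j x) := by
    intro j
    induction j with
    | zero => intro _; right; exact ⟨c, by simpa using hc, by simp [after]⟩
    | succ j ih =>
      intro hj
      rcases ih (by omega) with h | ⟨u, hu, hC⟩
      · left; exact h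
      · have hlen : (u ++ List.replicate j x).length = l + 1 := by
          rw [List.length_append, List.length_replicate, hu]; omega
        by_cases hp : u.length ≤ g (u ++ List.replicate j x)
        · left
          refine ⟨j, by omega, ?_⟩
          rw [hC]
          exact free_of_ge g u j x hlen (hg _ hlen) hp
        · right
          push Not at hp
          refine ⟨u.eraseIdx (g (u ++ List.replicate j x)), ?_, ?_⟩
          · rw [List.length_eraseIdx_of_lt hp, hu]; omega
          · rw [after_succ, hC, nxt_of_lt g u j x x hp, List.replicate_succ']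
  rcases key l le_rfl with h | ⟨u, hu, hC⟩
  · left; exact h
  · have hu1 : u.length = 1 := by omega
    rw [List.length_eq_one_iff] at hu1
    obtain ⟨e, rfl⟩ := hu1
    have hlen : ([e] ++ List.replicate l x).length = l + 1 := by simp
    by_cases hp : [e].length ≤ g ([e] ++ List.replicate l x)
    · left
      refine ⟨l, le_rfl, ?_⟩
      rw [hC]
      exact free_of_ge g [e] l x hlen (hg _ hlen) hp
    · by_cases he : e = x
      · left
        refine ⟨l, le_rfl, ?_⟩
        rw [hC, he]
        have h2 : [x] ++ List.replicate l x = [] ++ List.replicate (l + 1) x := by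
          simp [List.replicate_succ]
        rw [h2]
        apply free_of_ge g [] (l + 1) x (β := l + 1)
        · simp
        · apply hg; simp
        · simp
      · right
        have he' : e = !x := by
          cases e <;> cases x <;> simp_all
        subst he'
        refine ⟨by simpa using hC, ?_⟩
        simp only [List.length_cons, List.length_nil, zero_add, not_le, List.cons_append,
          List.nil_append] at hp
        omega

/-- Words produced from the two contents `a^l 0`, `a^l 1` that do not start with the label
different from `a`. -/
def dlang (l : ℕ) (a : Bool) (n : ℕ) : Finset (List Bool) :=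
  ((lang (outP g) (nxtP g) n (List.replicate l a ++ [false])) ∪
    (lang (outP g) (nxtP g) n (List.replicate l a ++ [true]))).filter
      (fun v => v.head? ≠ some (!a))

lemma mem_dlang (l : ℕ) (a : Bool) (n : ℕ) (v : List Bool) :
    v ∈ dlang g l a n ↔
      (∃ x, v ∈ lang (outP g) (nxtP g) n (List.replicate l a ++ [x])) ∧ v.head? ≠ some (!a) := by
  rw [dlang, Finset.mem_filter, Finset.mem_union]
  constructor
  · rintro ⟨h | h, h2⟩
    · exact ⟨⟨false, h⟩, h2⟩
    · exact ⟨⟨true, h⟩, h2⟩
  · rintro ⟨⟨x, h⟩, h2⟩
    cases x
    · exact ⟨Or.inl h, h2⟩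
    · exact ⟨Or.inr h, h2⟩

lemma walk (l : ℕ) (a : Bool) (j : ℕ) (hj : j ≤ l)
    (h : ∀ i < j, g (List.replicate (l + 1 - i) a ++ List.replicate i (!a)) < l + 1 - i) :
    after (nxtP g) (List.replicate (l + 1) a) (List.replicate j (!a)) =
        List.replicate (l + 1 - j) a ++ List.replicate j (!a) ∧
      run (outP g) (nxtP g) (List.replicate (l + 1) a) (List.replicate j (!a)) =
        List.replicate j a := by
  induction j with
  | zero => simp [after, run]
  | succ j ih =>
    obtain ⟨h1, h2⟩ := ih (by omega) (fun i hi => h i (by omega))
    have h3 := h j (by omega)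
    have h4 : g (List.replicate (l + 1 - j) a ++ List.replicate j (!a)) <
        (List.replicate (l + 1 - j) a).length := by
      rw [List.length_replicate]; exact h3
    constructor
    · rw [after_succ, h1, nxt_of_lt g _ j _ _ h4, List.eraseIdx_replicate, if_pos h3,
        List.replicate_succ' (n := j)]
      congr 2
    · rw [run_succ, h2, h1, outP, List.getD_append _ _ _ _ h4, List.getD_replicate _ h3,
        ← List.replicate_succ']

lemma sum_shift (k m N : ℕ) (f : ℕ → ℕ) (hN : m + 1 ≤ N)
    (hf : ∀ i ≤ m, V k (i + 1) ≤ f (i + 1)) :
    V k (m + 1 + (k + 1)) ≤ ∑ i ∈ Finset.range (N + 1), f i := by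
  rw [← sum_V]
  calc ∑ i ∈ Finset.range (m + 1), V k (i + 1)
      ≤ ∑ i ∈ Finset.range (m + 1), f (i + 1) := by
        apply Finset.sum_le_sum
        intro i hi
        rw [Finset.mem_range] at hi
        exact hf i (by omega)
    _ ≤ ∑ i ∈ Finset.range (m + 1), f (i + 1) + f 0 := Nat.le_add_right _ _
    _ = ∑ i ∈ Finset.range (m + 2), f i := (Finset.sum_range_succ' f (m + 1)).symm
    _ ≤ ∑ i ∈ Finset.range (N + 1), f i := by
        apply Finset.sum_le_sum_of_subset
        intro i hi
        rw [Finset.mem_range] at hi ⊢
        omega

lemma sum_plain (k m : ℕ) (f : ℕ → ℕ) (hf : ∀ i ≤ m, V k (i + 1) ≤ f i) :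
    V k (m + 1 + (k + 1)) ≤ ∑ i ∈ Finset.range (m + 1), f i := by
  rw [← sum_V]
  apply Finset.sum_le_sum
  intro i hi
  rw [Finset.mem_range] at hi
  exact hf i (by omega)

theorem lower_plus (k : ℕ) (hk : 1 ≤ k)
    (hg : ∀ c : List Bool, c.length = k + 1 + 1 → g c < k + 1 + 1) (n : ℕ) :
    (∀ (a : Bool) (c : List Bool), c.length = k + 1 + 1 → Free (outP g) (nxtP g) a c →
      V k n ≤ (lang (outP g) (nxtP g) n c).card) ∧
    (∀ a : Bool, V k (n + 1) ≤ (dlang g (k + 1) a n).card) := by
  induction n using Nat.strong_induction_on with
  | _ n IH =>
  constructor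
  · intro a c hc hfree
    by_cases hn : n ≤ k + 2
    · rw [V_small k n hn]; exact one_le_card _ _ _ _
    · obtain ⟨m, hm⟩ : ∃ m, n = m + 1 + (k + 1) := ⟨n - (k + 2), by omega⟩
      rcases transient g (k + 1) hg c hc (!a) with ⟨t, ht, hf⟩ | ⟨hA, hg0⟩
      · have hlen := length_afterP g (by omega) hg (List.replicate t (!a)) c hc
        refine le_trans ?_ (sum_card_le a (run (outP g) (nxtP g) c (List.replicate t (!a))) (n - t)
          (fun i => lang (outP g) (nxtP g) i (after (nxtP g) c (List.replicate t (!a))))
          (lang (outP g) (nxtP g) n c) ?_ ?_)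
        · rw [hm]
          apply sum_shift k m _ _ (by omega)
          intro i hi
          exact (IH (i + 1) (by omega)).1 (!a) _ hlen hf
        · intro i _ v hv
          have := head_of_mem_lang _ _ hv
          rw [hf.1, Bool.not_not] at this
          exact this
        · intro i hi v hv
          have h1 := append_mem_lang _ _ (List.replicate t (!a)) hv
          have h2 := append_mem_lang (outP g) (nxtP g) (s := c) (List.replicate (n - t - i) a)
            (n := (List.replicate t (!a)).length + i)
            (v := run (outP g) (nxtP g) c (List.replicate t (!a)) ++ v)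
            (by rw [(free_after _ _ hfree _).1]; exact h1)
          rw [(free_after _ _ hfree _).2] at h2
          rw [List.length_replicate, List.length_replicate] at h2
          have e : n - t - i + (t + i) = n := by omega
          rwa [e] at h2
      · rw [Bool.not_not] at hA hg0
        refine le_trans ?_ (sum_card_le a
          (run (outP g) (nxtP g) c (List.replicate (k + 1) (!a)) ++ [a]) m
          (fun i => dlang g (k + 1) (!a) i) (lang (outP g) (nxtP g) n c) ?_ ?_)
        · rw [hm]
          apply sum_plain k m
          intro i hi
          exact (IH i (by omega)).2 (!a)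
        · intro i _ v hv
          have := ((mem_dlang _ _ _ _ _).mp hv).2
          rw [Bool.not_not] at this
          exact this
        · intro i hi v hv
          obtain ⟨⟨x, hx⟩, _⟩ := (mem_dlang _ _ _ _ _).mp hv
          have hnx : nxtP g (a :: List.replicate (k + 1) (!a)) x =
              List.replicate (k + 1) (!a) ++ [x] := by
            rw [nxtP, hg0, List.eraseIdx_cons_zero]
          have hout : outP g (a :: List.replicate (k + 1) (!a)) = a := by
            rw [outP, hg0, List.getD_cons_zero]
          have h0 : a :: v ∈ lang (outP g) (nxtP g) (i + 1) (a :: List.replicate (k + 1) (!a)) := by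
            have := cons_mem_lang (outP g) (nxtP g) (s := a :: List.replicate (k + 1) (!a)) x
              (by rw [hnx]; exact hx)
            rwa [hout] at this
          have h1 := append_mem_lang (outP g) (nxtP g) (s := c) (List.replicate (k + 1) (!a))
            (by rw [hA]; exact h0)
          have h2 := append_mem_lang (outP g) (nxtP g) (s := c) (List.replicate (m - i) a)
            (n := (List.replicate (k + 1) (!a)).length + (i + 1))
            (v := run (outP g) (nxtP g) c (List.replicate (k + 1) (!a)) ++ a :: v)
            (by rw [(free_after _ _ hfree _).1]; exact h1)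
          rw [(free_after _ _ hfree _).2, List.length_replicate, List.length_replicate] at h2
          have e : m - i + (k + 1 + (i + 1)) = n := by omega
          rw [e] at h2
          rw [List.append_assoc]
          exact h2
  · intro a
    have hfree0 : Free (outP g) (nxtP g) a (List.replicate (k + 1 + 1) a) := by
      have := free_of_ge g [] (k + 1 + 1) a (β := k + 1 + 1) (by simp) (by apply hg; simp) (by simp)
      simpa using this
    have he0 : List.replicate (k + 1) a ++ [a] = List.replicate (k + 1 + 1) a :=
      (List.replicate_succ').symm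
    by_cases hn : n + 1 ≤ k + 2
    · rw [V_small k (n + 1) hn]
      apply Finset.card_pos.mpr
      obtain ⟨w, hw⟩ := lang_nonempty (outP g) (nxtP g) n (List.replicate (k + 1) a ++ [a])
      refine ⟨w, (mem_dlang _ _ _ _ _).mpr ⟨⟨a, hw⟩, ?_⟩⟩
      have := head_of_mem_lang _ _ hw
      rw [he0, hfree0.1] at this
      exact this
    · obtain ⟨m, hm⟩ : ∃ m, n + 1 = m + 1 + (k + 1) := ⟨n - (k + 1), by omega⟩
      by_cases hex : ∃ b, b ≤ k ∧
          ¬ g (List.replicate (k + 1 + 1 - b) a ++ List.replicate b (!a)) < k + 1 + 1 - b
      · classical
        set b := Nat.find hex with hb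
        obtain ⟨hbk, hbg⟩ := Nat.find_spec hex
        rw [← hb] at hbk hbg
        have hmin : ∀ i < b, g (List.replicate (k + 1 + 1 - i) a ++ List.replicate i (!a)) <
            k + 1 + 1 - i := by
          intro i hi
          by_contra hcon
          exact Nat.find_min hex hi ⟨by omega, hcon⟩
        have hb1 : 1 ≤ b := by
          by_contra hcon
          have hb0 : b = 0 := by omega
          rw [hb0] at hbg
          apply hbg
          have := hg (List.replicate (k + 1 + 1) a) (by simp)
          simpa using this
        obtain ⟨hw1, hw2⟩ := walk g (k + 1) a b (by omega) hmin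
        have hlenb : (List.replicate (k + 1 + 1 - b) a ++ List.replicate b (!a)).length =
            k + 1 + 1 := by
          rw [List.length_append, List.length_replicate, List.length_replicate]; omega
        have hfb : Free (outP g) (nxtP g) (!a)
            (List.replicate (k + 1 + 1 - b) a ++ List.replicate b (!a)) := by
          apply free_of_ge g _ b (!a) hlenb (hg _ hlenb)
          rw [List.length_replicate]; omega
        refine le_trans ?_ (sum_card_le a (List.replicate b a) (n - b)
          (fun i => lang (outP g) (nxtP g) i
            (List.replicate (k + 1 + 1 - b) a ++ List.replicate b (!a)))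
          (dlang g (k + 1) a n) ?_ ?_)
        · rw [hm]
          apply sum_shift k m _ _ (by omega)
          intro i hi
          exact (IH (i + 1) (by omega)).1 (!a) _ hlenb hfb
        · intro i _ v hv
          have := head_of_mem_lang _ _ hv
          rw [hfb.1, Bool.not_not] at this
          exact this
        · intro i hi v hv
          rw [mem_dlang]
          refine ⟨⟨a, ?_⟩, ?_⟩
          · rw [he0]
            have h1 := append_mem_lang (outP g) (nxtP g) (s := List.replicate (k + 1 + 1) a)
              (List.replicate b (!a)) (by rw [hw1]; exact hv)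
            rw [hw2, List.length_replicate] at h1
            have h2 := append_mem_lang (outP g) (nxtP g) (s := List.replicate (k + 1 + 1) a)
              (List.replicate (n - b - i) a) (by rw [(free_after _ _ hfree0 _).1]; exact h1)
            rw [(free_after _ _ hfree0 _).2, List.length_replicate] at h2
            have e : n - b - i + (b + i) = n := by omega
            rwa [e] at h2
          · rw [← List.append_assoc, ← List.replicate_add]
            obtain ⟨q, hq⟩ : ∃ q, n - b - i + b = q + 1 := ⟨n - b - i + b - 1, by omega⟩
            rw [hq, List.replicate_succ]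
            simp
      · push Not at hex
        have hall : ∀ i < k + 1, g (List.replicate (k + 1 + 1 - i) a ++ List.replicate i (!a)) <
            k + 1 + 1 - i := fun i hi => hex i (by omega)
        obtain ⟨hw1, hw2⟩ := walk g (k + 1) a (k + 1) le_rfl hall
        have e1 : k + 1 + 1 - (k + 1) = 1 := by omega
        rw [e1] at hw1
        -- the same end point from `a^(k+1) !a`, one step shorter
        have hnx0 : nxtP g (List.replicate (k + 1 + 1) a) (!a) =
            List.replicate (k + 1) a ++ [!a] := by
          rw [nxtP, List.eraseIdx_replicate, if_pos (hg _ (by simp))]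
          rfl
        have hw1' : after (nxtP g) (List.replicate (k + 1) a ++ [!a]) (List.replicate k (!a)) =
            List.replicate 1 a ++ List.replicate (k + 1) (!a) := by
          have h : after (nxtP g) (List.replicate (k + 1 + 1) a) ((!a) :: List.replicate k (!a)) =
              List.replicate 1 a ++ List.replicate (k + 1) (!a) := by
            rw [← List.replicate_succ]; exact hw1
          rw [after, hnx0] at h
          exact h
        have hw2' : run (outP g) (nxtP g) (List.replicate (k + 1) a ++ [!a])
            (List.replicate k (!a)) = List.replicate k a := by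
          have h := hw2
          rw [List.replicate_succ (n := k) (a := !a), run, hnx0,
            List.replicate_succ (n := k) (a := a)] at h
          exact (List.cons.inj h).2
        have hlen1 : (List.replicate 1 a ++ List.replicate (k + 1) (!a)).length = k + 1 + 1 := by
          rw [List.length_append, List.length_replicate, List.length_replicate]; omega
        by_cases hg1 : (List.replicate 1 a).length ≤
            g (List.replicate 1 a ++ List.replicate (k + 1) (!a))
        · have hfb : Free (outP g) (nxtP g) (!a)
              (List.replicate 1 a ++ List.replicate (k + 1) (!a)) :=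
            free_of_ge g _ _ (!a) hlen1 (hg _ hlen1) hg1
          refine le_trans ?_ (sum_card_le a (List.replicate k a) (n - k)
            (fun i => lang (outP g) (nxtP g) i
              (List.replicate 1 a ++ List.replicate (k + 1) (!a)))
            (dlang g (k + 1) a n) ?_ ?_)
          · rw [hm]
            apply sum_shift k m _ _ (by omega)
            intro i hi
            exact (IH (i + 1) (by omega)).1 (!a) _ hlen1 hfb
          · intro i _ v hv
            have := head_of_mem_lang _ _ hv
            rw [hfb.1, Bool.not_not] at this
            exact this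
          · intro i hi v hv
            rw [mem_dlang]
            constructor
            · rcases Nat.eq_zero_or_pos (n - k - i) with h0 | hpos
              · refine ⟨!a, ?_⟩
                have h1 := append_mem_lang (outP g) (nxtP g)
                  (s := List.replicate (k + 1) a ++ [!a])
                  (List.replicate k (!a)) (by rw [hw1']; exact hv)
                rw [hw2', List.length_replicate] at h1
                rw [h0, List.replicate_zero, List.nil_append]
                have e : k + i = n := by omega
                rwa [e] at h1
              · refine ⟨a, ?_⟩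
                rw [he0]
                have h1 := append_mem_lang (outP g) (nxtP g) (s := List.replicate (k + 1 + 1) a)
                  (List.replicate (k + 1) (!a)) (by rw [hw1]; exact hv)
                rw [hw2, List.length_replicate] at h1
                have h2 := append_mem_lang (outP g) (nxtP g) (s := List.replicate (k + 1 + 1) a)
                  (List.replicate (n - k - i - 1) a)
                  (by rw [(free_after _ _ hfree0 _).1]; exact h1)
                rw [(free_after _ _ hfree0 _).2, List.length_replicate] at h2
                have e : n - k - i - 1 + (k + 1 + i) = n := by omega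
                rw [e, ← List.append_assoc, ← List.replicate_add] at h2
                rw [← List.append_assoc, ← List.replicate_add]
                have e' : n - k - i + k = n - k - i - 1 + (k + 1) := by omega
                rwa [e']
            · rw [← List.append_assoc, ← List.replicate_add]
              obtain ⟨q, hq⟩ : ∃ q, n - k - i + k = q + 1 := ⟨n - k - i + k - 1, by omega⟩
              rw [hq, List.replicate_succ]
              simp
        · have hg0 : g (List.replicate 1 a ++ List.replicate (k + 1) (!a)) = 0 := by
            rw [List.length_replicate] at hg1; omega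
          have hstep : ∀ (i : ℕ) (v : List Bool), v ∈ dlang g (k + 1) (!a) i →
              a :: v ∈ lang (outP g) (nxtP g) (i + 1)
                (List.replicate 1 a ++ List.replicate (k + 1) (!a)) := by
            intro i v hv
            obtain ⟨⟨x, hx⟩, _⟩ := (mem_dlang _ _ _ _ _).mp hv
            have hnx : nxtP g (List.replicate 1 a ++ List.replicate (k + 1) (!a)) x =
                List.replicate (k + 1) (!a) ++ [x] := by
              rw [nxtP, hg0]; rfl
            have hout : outP g (List.replicate 1 a ++ List.replicate (k + 1) (!a)) = a := by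
              rw [outP, hg0]; rfl
            have := cons_mem_lang (outP g) (nxtP g)
              (s := List.replicate 1 a ++ List.replicate (k + 1) (!a)) x
              (by rw [hnx]; exact hx)
            rwa [hout] at this
          refine le_trans ?_ (sum_card_le a (List.replicate (k + 1) a) m
            (fun i => dlang g (k + 1) (!a) i)
            (dlang g (k + 1) a n) ?_ ?_)
          · rw [hm]
            apply sum_plain k m
            intro i hi
            exact (IH i (by omega)).2 (!a)
          · intro i _ v hv
            have := ((mem_dlang _ _ _ _ _).mp hv).2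
            rw [Bool.not_not] at this
            exact this
          · intro i hi v hv
            have hv' := hstep i v hv
            rw [mem_dlang]
            constructor
            · rcases Nat.eq_zero_or_pos (m - i) with h0 | hpos
              · refine ⟨!a, ?_⟩
                have h1 := append_mem_lang (outP g) (nxtP g)
                  (s := List.replicate (k + 1) a ++ [!a])
                  (List.replicate k (!a)) (by rw [hw1']; exact hv')
                rw [hw2', List.length_replicate] at h1
                rw [h0, List.replicate_zero, List.nil_append]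
                have e : k + (i + 1) = n := by omega
                rw [e] at h1
                have e2 : List.replicate k a ++ a :: v = List.replicate (k + 1) a ++ v := by
                  rw [List.replicate_succ', List.append_assoc]; rfl
                rwa [e2] at h1
              · refine ⟨a, ?_⟩
                rw [he0]
                have h1 := append_mem_lang (outP g) (nxtP g) (s := List.replicate (k + 1 + 1) a)
                  (List.replicate (k + 1) (!a)) (by rw [hw1]; exact hv')
                rw [hw2, List.length_replicate] at h1
                have h2 := append_mem_lang (outP g) (nxtP g) (s := List.replicate (k + 1 + 1) a)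
                  (List.replicate (m - i - 1) a)
                  (by rw [(free_after _ _ hfree0 _).1]; exact h1)
                rw [(free_after _ _ hfree0 _).2, List.length_replicate] at h2
                have e : m - i - 1 + (k + 1 + (i + 1)) = n := by omega
                rw [e] at h2
                have e2 : List.replicate (k + 1) a ++ a :: v = List.replicate (k + 1 + 1) a ++ v := by
                  rw [List.replicate_succ' (n := k + 1), List.append_assoc]; rfl
                rw [e2, ← List.append_assoc, ← List.replicate_add] at h2
                rw [← List.append_assoc, ← List.replicate_add]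
                have e' : m - i + (k + 1) = m - i - 1 + (k + 1 + 1) := by omega
                rwa [e']
            · rw [← List.append_assoc, ← List.replicate_add]
              obtain ⟨q, hq⟩ : ∃ q, m - i + (k + 1) = q + 1 := ⟨m - i + (k + 1) - 1, by omega⟩
              rw [hq, List.replicate_succ]
              simp

/-! Box of size two. -/

lemma cons_union_card (S T0 T1 : Finset (List Bool))
    (h0 : T0.image (fun w => false :: w) ⊆ S) (h1 : T1.image (fun w => true :: w) ⊆ S) :
    T0.card + T1.card ≤ S.card := by
  have hinj0 : (T0.image (fun w => false :: w)).card = T0.card :=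
    Finset.card_image_of_injective _ (fun a b h => (List.cons.inj h).2)
  have hinj1 : (T1.image (fun w => true :: w)).card = T1.card :=
    Finset.card_image_of_injective _ (fun a b h => (List.cons.inj h).2)
  have hdisj : Disjoint (T0.image (fun w => false :: w)) (T1.image (fun w => true :: w)) := by
    rw [Finset.disjoint_left]
    intro w hw hw'
    rw [Finset.mem_image] at hw hw'
    obtain ⟨v, _, rfl⟩ := hw
    obtain ⟨u, _, hu⟩ := hw'
    exact absurd (List.cons.inj hu).1 (by decide)
  calc T0.card + T1.card
      = (T0.image (fun w => false :: w) ∪ T1.image (fun w => true :: w)).card := by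
        rw [Finset.card_union_of_disjoint hdisj, hinj0, hinj1]
    _ ≤ S.card := Finset.card_le_card (Finset.union_subset h0 h1)

lemma two_box (hg : ∀ c : List Bool, c.length = 2 → g c < 2) (n : ℕ) :
    2 ^ n ≤ ((lang (outP g) (nxtP g) n [false, false] ∪ lang (outP g) (nxtP g) n [false, true]) ∪
      (lang (outP g) (nxtP g) n [true, false] ∪ lang (outP g) (nxtP g) n [true, true])).card := by
  have hpos : ∀ a b : Bool, g [a, b] = 0 ∨ g [a, b] = 1 := by
    intro a b
    have := hg [a, b] rfl
    omega
  by_cases hd : ∃ d : Bool, g [d, !d] = 1
  · obtain ⟨d, hd⟩ := hd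
    -- from the content `[d, x]` the letter `x` is written and `d` stays
    have hstep : ∀ x y : Bool, outP g [d, x] = x ∧ nxtP g [d, x] y = [d, y] := by
      intro x y
      by_cases hx : x = d
      · subst hx
        rcases hpos x x with h | h
        · exact ⟨by rw [outP, h]; rfl, by rw [nxtP, h]; rfl⟩
        · exact ⟨by rw [outP, h]; rfl, by rw [nxtP, h]; rfl⟩
      · have hx' : x = !d := by cases x <;> cases d <;> simp_all
        subst hx'
        exact ⟨by rw [outP, hd]; rfl, by rw [nxtP, hd]; rfl⟩
    have key : ∀ n, 2 ^ n ≤ (lang (outP g) (nxtP g) n [d, false] ∪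
        lang (outP g) (nxtP g) n [d, true]).card := by
      intro n
      induction n with
      | zero => simp [lang]
      | succ n ih =>
        have := cons_union_card (lang (outP g) (nxtP g) (n + 1) [d, false] ∪
          lang (outP g) (nxtP g) (n + 1) [d, true])
          (lang (outP g) (nxtP g) n [d, false] ∪ lang (outP g) (nxtP g) n [d, true])
          (lang (outP g) (nxtP g) n [d, false] ∪ lang (outP g) (nxtP g) n [d, true]) ?_ ?_
        · rw [pow_succ]; omega
        · apply Finset.Subset.trans _ Finset.subset_union_left
          rw [lang, (hstep false false).1, (hstep false false).2, (hstep false true).2]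
        · apply Finset.Subset.trans _ Finset.subset_union_right
          rw [lang, (hstep true false).1, (hstep true false).2, (hstep true true).2]
    refine le_trans (key n) (Finset.card_le_card ?_)
    cases d
    · exact Finset.subset_union_left
    · exact Finset.subset_union_right
  · push Not at hd
    have hstep : ∀ d x y : Bool, outP g [d, x] = d ∧ nxtP g [d, x] y = [x, y] := by
      intro d x y
      by_cases hx : x = d
      · subst hx
        rcases hpos x x with h | h
        · exact ⟨by rw [outP, h]; rfl, by rw [nxtP, h]; rfl⟩
        · exact ⟨by rw [outP, h]; rfl, by rw [nxtP, h]; rfl⟩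
      · have hx' : x = !d := by cases x <;> cases d <;> simp_all
        subst hx'
        have h := (hpos d (!d)).resolve_right (hd d)
        exact ⟨by rw [outP, h]; rfl, by rw [nxtP, h]; rfl⟩
    induction n with
    | zero => simp [lang]
    | succ n ih =>
      have := cons_union_card ((lang (outP g) (nxtP g) (n + 1) [false, false] ∪
        lang (outP g) (nxtP g) (n + 1) [false, true]) ∪
        (lang (outP g) (nxtP g) (n + 1) [true, false] ∪ lang (outP g) (nxtP g) (n + 1) [true, true]))
        ((lang (outP g) (nxtP g) n [false, false] ∪ lang (outP g) (nxtP g) n [false, true]) ∪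
        (lang (outP g) (nxtP g) n [true, false] ∪ lang (outP g) (nxtP g) n [true, true]))
        ((lang (outP g) (nxtP g) n [false, false] ∪ lang (outP g) (nxtP g) n [false, true]) ∪
        (lang (outP g) (nxtP g) n [true, false] ∪ lang (outP g) (nxtP g) n [true, true])) ?_ ?_
      · rw [pow_succ]; omega
      · apply Finset.Subset.trans _ Finset.subset_union_left
        simp only [lang, (hstep false false false).1, (hstep false true false).1,
          (hstep false false false).2, (hstep false false true).2, (hstep false true false).2,
          (hstep false true true).2]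
        rw [← Finset.image_union]
      · apply Finset.Subset.trans _ Finset.subset_union_right
        simp only [lang, (hstep true false false).1, (hstep true true false).1,
          (hstep true false false).2, (hstep true false true).2, (hstep true true false).2,
          (hstep true true true).2]
        rw [← Finset.image_union]

end Plus

/-! ### Words with long runs -/

/-- Words that can follow the letter `a` when at least `j` more letters `a` are forced and every
new run is forced to have length at least `k + 1`. -/
def W (k : ℕ) : ℕ → Bool → ℕ → Finset (List Bool)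
  | 0, _, _ => {[]}
  | n + 1, a, 0 => (W k n a 0).image (fun w => a :: w) ∪ (W k n (!a) k).image (fun w => (!a) :: w)
  | n + 1, a, j + 1 => (W k n a j).image (fun w => a :: w)

lemma card_W (k n : ℕ) (a : Bool) (j : ℕ) : (W k n a j).card ≤ U k (n - j) := by
  induction n generalizing a j with
  | zero => simp [W, U]
  | succ n ih =>
    cases j with
    | zero =>
      rw [W, Nat.sub_zero, U]
      refine le_trans (Finset.card_union_le _ _) ?_
      refine add_le_add (le_trans Finset.card_image_le ?_) (le_trans Finset.card_image_le ?_)
      · simpa using ih a 0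
      · exact ih (!a) k
    | succ j =>
      rw [W]
      refine le_trans Finset.card_image_le ?_
      have e : n + 1 - (j + 1) = n - j := by omega
      rw [e]
      exact ih a j

lemma W_mono (k n : ℕ) (a : Bool) (j : ℕ) : W k n a (j + 1) ⊆ W k n a j := by
  induction n generalizing j with
  | zero => simp [W]
  | succ n ih =>
    cases j with
    | zero => rw [W, W]; exact Finset.subset_union_left
    | succ j => rw [W, W]; exact Finset.image_subset_image (ih j)

lemma W_switch (k n : ℕ) (a : Bool) : W k n (!a) (k + 1) ⊆ W k n a 0 := by
  cases n with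
  | zero => simp [W]
  | succ n => rw [W, W]; exact Finset.subset_union_right

/-! ### The strategy for known entrance order: write the label of the oldest object, and keep the
oldest object as long as possible -/

def keepOldest (c : List Bool) : ℕ :=
  match c with
  | [] => 0
  | a :: t => if a ∈ t then t.idxOf a + 1 else 0

lemma keepOldest_lt (c : List Bool) (β : ℕ) (hβ : 1 ≤ β) (hc : c.length = β) :
    keepOldest c < β := by
  match c, hc with
  | [], hc => simp at hc; omega
  | a :: t, hc =>
    rw [keepOldest]
    split_ifs with h
    · have := List.idxOf_lt_length_of_mem h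
      rw [List.length_cons] at hc
      omega
    · omega

lemma upper_plus_aux (k : ℕ) (xs : List Bool) (a : Bool) (t : List Bool) (ht : t.length = k + 1)
    (j : ℕ) (hj : j ≤ t.count a + 1) :
    run (outP keepOldest) (nxtP keepOldest) (a :: t) xs ∈ W k xs.length a j := by
  induction xs generalizing a t j with
  | nil => simp [run, W]
  | cons x xs ih =>
    by_cases hat : a ∈ t
    · have hout : outP keepOldest (a :: t) = a := by
        rw [outP, keepOldest, if_pos hat, List.getD_cons_succ,
          List.getD_eq_getElem _ _ (List.idxOf_lt_length_of_mem hat), List.getElem_idxOf]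
      have hnxt : nxtP keepOldest (a :: t) x = a :: (t.erase a ++ [x]) := by
        rw [nxtP, keepOldest, if_pos hat, List.eraseIdx_cons_succ,
          List.erase_eq_eraseIdx_of_idxOf rfl]
        rfl
      have hlen : (t.erase a ++ [x]).length = k + 1 := by
        rw [List.length_append, List.length_erase_of_mem hat, ht]
        simp
      have hcount : t.count a ≤ (t.erase a ++ [x]).count a + 1 := by
        rw [List.count_append, List.count_erase_self]
        omega
      rw [run, hout, hnxt, List.length_cons]
      cases j with
      | zero =>
        rw [W]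
        exact Finset.mem_union_left _ (Finset.mem_image_of_mem _ (ih a _ hlen 0 (by omega)))
      | succ j =>
        rw [W]
        exact Finset.mem_image_of_mem _ (ih a _ hlen j (by omega))
    · have hrep : t = List.replicate (k + 1) (!a) := by
        rw [List.eq_replicate_iff]
        refine ⟨ht, ?_⟩
        intro b hb
        have : b ≠ a := fun h => hat (h ▸ hb)
        cases b <;> cases a <;> simp_all
      have hout : outP keepOldest (a :: t) = a := by
        rw [outP, keepOldest, if_neg hat]; rfl
      have hnxt : nxtP keepOldest (a :: t) x = (!a) :: (List.replicate k (!a) ++ [x]) := by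
        rw [nxtP, keepOldest, if_neg hat, List.eraseIdx_cons_zero, hrep, List.replicate_succ]
        rfl
      have hlen : (List.replicate k (!a) ++ [x]).length = k + 1 := by simp
      have hmem := ih (!a) _ hlen (k + 1) (by
        rw [List.count_append, List.count_replicate_self]; omega)
      have hc0 : t.count a = 0 := List.count_eq_zero.mpr hat
      rw [run, hout, hnxt, List.length_cons]
      cases j with
      | zero =>
        rw [W]
        exact Finset.mem_union_left _ (Finset.mem_image_of_mem _ (W_switch k _ a hmem))
      | succ j =>
        have hj0 : j = 0 := by omega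
        subst hj0
        rw [W]
        exact Finset.mem_image_of_mem _ (W_switch k _ a hmem)

lemma outputsPlus_finite_of_subset {n : ℕ} {T : Set (List Bool)}
    (h : ∀ w ∈ T, w.length = n) : T.Finite :=
  (List.finite_length_eq Bool n).subset h

lemma length_runPlus (π : ℕ) (rule : List Bool → List Bool → ℕ) (c m xs : List Bool) :
    (runPlus π rule c m xs).length = xs.length := by
  induction xs generalizing c m with
  | nil => rfl
  | cons x xs ih => simp only [runPlus, List.length_cons, ih]

lemma outputsPlus_finite (π β n : ℕ) (rule : List Bool → List Bool → ℕ) :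
    (outputsPlus π β n rule).Finite := by
  apply outputsPlus_finite_of_subset (n := n)
  rintro w ⟨c, xs, _, hxs, rfl⟩
  rw [length_runPlus, hxs]

lemma lang_subset_outputsPlus (β n : ℕ) (rule : List Bool → List Bool → ℕ) (c : List Bool)
    (hc : c.length = β) :
    (↑(lang (outP fun c => rule c []) (nxtP fun c => rule c []) n c) : Set (List Bool)) ⊆
      outputsPlus 0 β n rule := by
  intro w hw
  rw [Finset.mem_coe, mem_lang] at hw
  obtain ⟨xs, hxs, rfl⟩ := hw
  exact ⟨c, xs, hc, hxs, (run_eq_runPlus rule c xs).symm⟩

lemma V_zero_le (n : ℕ) : V 0 n ≤ 2 ^ n := by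
  induction n with
  | zero => simp [V]
  | succ n ih =>
    rw [V]
    split_ifs
    · exact Nat.one_le_two_pow
    · rw [pow_succ]; simp only [Nat.sub_zero]; omega

theorem NPlus_lower (k n : ℕ) : V k n ≤ NPlus 0 (k + 2) n := by
  rw [NPlus]
  apply le_csInf
  · exact ⟨_, fun _ _ => 0, fun c m _ => Nat.succ_pos _, rfl⟩
  · rintro _ ⟨rule, hrule, rfl⟩
    have hfin := outputsPlus_finite 0 (k + 2) n rule
    rcases Nat.eq_zero_or_pos k with hk | hk
    · subst hk
      refine le_trans (V_zero_le n) (le_trans (two_box (fun c => rule c [])
        (fun c hc => hrule c [] hc) n) ?_)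
      rw [← Set.ncard_coe_finset]
      apply Set.ncard_le_ncard _ hfin
      simp only [Finset.coe_union]
      refine Set.union_subset (Set.union_subset ?_ ?_) (Set.union_subset ?_ ?_) <;>
        exact lang_subset_outputsPlus _ n rule _ rfl
    · have hg : ∀ c : List Bool, c.length = k + 1 + 1 → (fun c => rule c []) c < k + 1 + 1 :=
        fun c hc => hrule c [] hc
      have hfree0 : Free (outP fun c => rule c []) (nxtP fun c => rule c []) true
          (List.replicate (k + 1 + 1) true) := by
        have := free_of_ge (fun c => rule c []) [] (k + 1 + 1) true (β := k + 1 + 1) (by simp)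
          (by apply hg; simp) (by simp)
        simpa using this
      refine le_trans ((lower_plus (fun c => rule c []) k hk hg n).1 true _ (by simp) hfree0) ?_
      rw [← Set.ncard_coe_finset]
      exact Set.ncard_le_ncard (lang_subset_outputsPlus _ n rule _ (by simp)) hfin

theorem NPlus_upper (k n : ℕ) : NPlus 0 (k + 2) n ≤ 2 * U k n := by
  have hmem : (outputsPlus 0 (k + 2) n (fun c _ => keepOldest c)).ncard ∈
      {j | ∃ rule, ValidPlus (k + 2) rule ∧ j = (outputsPlus 0 (k + 2) n rule).ncard} :=
    ⟨_, fun c m hc => keepOldest_lt c _ (by omega) hc, rfl⟩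
  refine le_trans (Nat.sInf_le hmem) ?_
  have hsub : outputsPlus 0 (k + 2) n (fun c _ => keepOldest c) ⊆
      (↑(W k n false 0 ∪ W k n true 0) : Set (List Bool)) := by
    rintro w ⟨c, xs, hc, hxs, rfl⟩
    rw [run_eq_runPlus]
    match c, hc with
    | a :: t, hc =>
      have ht : t.length = k + 1 := by simpa using hc
      have := upper_plus_aux k xs a t ht 0 (by omega)
      rw [hxs] at this
      rw [Finset.mem_coe, Finset.mem_union]
      cases a
      · exact Or.inl this
      · exact Or.inr this
  refine le_trans (Set.ncard_le_ncard hsub (Finset.finite_toSet _)) ?_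
  rw [Set.ncard_coe_finset]
  refine le_trans (Finset.card_union_le _ _) ?_
  have h1 := card_W k n false 0
  have h2 := card_W k n true 0
  rw [Nat.sub_zero] at h1 h2
  omega

/-! ### The box with unknown entrance order and memory one -/

/-- New state after writing `y` and receiving `x`. -/
def upd (s : Bool → ℕ) (y x : Bool) : Bool → ℕ :=
  fun i => s i - (if i = y then 1 else 0) + (if i = x then 1 else 0)

lemma upd_sum {β : ℕ} (s : Bool → ℕ) (y x : Bool) (hs : s false + s true = β) (hy : 0 < s y) :
    upd s y x false + upd s y x true = β := by
  cases y <;> cases x <;> simp [upd] <;> omega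

section Minus
variable (rule : (Bool → ℕ) → List Bool → Bool)

def outM (p : (Bool → ℕ) × Bool) : Bool := rule p.1 [p.2]
def nxtM (p : (Bool → ℕ) × Bool) (x : Bool) : (Bool → ℕ) × Bool :=
  (upd p.1 (rule p.1 [p.2]) x, rule p.1 [p.2])

lemma run_eq_runMinus (s : Bool → ℕ) (b : Bool) (xs : List Bool) :
    runMinus 1 rule s [b] xs = run (outM rule) (nxtM rule) (s, b) xs := by
  induction xs generalizing s b with
  | nil => rfl
  | cons x xs ih =>
    rw [runMinus, run]
    have e : (rule s [b] :: [b]).take 1 = [rule s [b]] := rfl
    rw [e, ih]
    rfl

/-- The state with `t` objects labelled `a` among `β`. -/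
def mk (β : ℕ) (a : Bool) (t : ℕ) : Bool → ℕ := fun i => if i = a then t else β - t

lemma mk_sum (β : ℕ) (a : Bool) (t : ℕ) (ht : t ≤ β) : mk β a t false + mk β a t true = β := by
  cases a <;> simp [mk] <;> omega

lemma mk_not (β : ℕ) (a : Bool) (t : ℕ) (ht : t ≤ β) : mk β a t = mk β (!a) (β - t) := by
  funext i
  cases i <;> cases a <;> simp [mk] <;> omega

lemma upd_same (s : Bool → ℕ) (y : Bool) (hy : 0 < s y) : upd s y y = s := by
  funext i
  cases i <;> cases y <;> simp [upd] <;> omega

lemma upd_other (β : ℕ) (a : Bool) (t : ℕ) (ht : t + 1 ≤ β) :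
    upd (mk β a (t + 1)) a (!a) = mk β a t := by
  funext i
  cases i <;> cases a <;> simp [mk, upd] <;> omega

/-- Words from the two neighbouring states with `t` and `t + 1` objects labelled `a`, when the
previous output was `b`. -/
def PL (β : ℕ) (a b : Bool) (t n : ℕ) : Finset (List Bool) :=
  lang (outM rule) (nxtM rule) n (mk β a (t + 1), b) ∪ lang (outM rule) (nxtM rule) n (mk β a t, b)

/-- If the rule writes `y` from state `s` then all words from the two possible next states occur. -/
lemma lang_step {n : ℕ} (s : Bool → ℕ) (b : Bool) :
    lang (outM rule) (nxtM rule) (n + 1) (s, b) =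
      (lang (outM rule) (nxtM rule) n (upd s (rule s [b]) false, rule s [b]) ∪
        lang (outM rule) (nxtM rule) n (upd s (rule s [b]) true, rule s [b])).image
          (fun w => rule s [b] :: w) := rfl

lemma lang_step_down {β n : ℕ} (a b : Bool) (t : ℕ) (ht : t + 1 ≤ β)
    (h : rule (mk β a (t + 1)) [b] = a) :
    lang (outM rule) (nxtM rule) (n + 1) (mk β a (t + 1), b) =
      (PL rule β a a t n).image (fun w => a :: w) := by
  have h1 : upd (mk β a (t + 1)) a a = mk β a (t + 1) := upd_same _ _ (by simp [mk])
  have h2 := upd_other β a t ht
  rw [lang_step, h, PL]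
  congr 1
  cases a
  · rw [Bool.not_false] at h2
    rw [h1, h2]
  · rw [Bool.not_true] at h2
    rw [h1, h2, Finset.union_comm]

lemma lang_step_up {β n : ℕ} (a b : Bool) (t : ℕ) (ht : t + 1 ≤ β)
    (h : rule (mk β a t) [b] = !a) :
    lang (outM rule) (nxtM rule) (n + 1) (mk β a t, b) =
      (PL rule β a (!a) t n).image (fun w => (!a) :: w) := by
  have e1 : mk β a t = mk β (!a) (β - t - 1 + 1) := by
    rw [mk_not β a t (by omega)]; congr 1; omega
  rw [e1] at h ⊢
  rw [lang_step_down rule (!a) b (β - t - 1) (by omega) h, PL, PL]
  have e2 : mk β (!a) (β - t - 1 + 1) = mk β a t := e1.symm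
  have e3 : mk β (!a) (β - t - 1) = mk β a (t + 1) := by
    rw [mk_not β a (t + 1) ht]; congr 1
  rw [e2, e3, Finset.union_comm]

/-- Descending through states where the rule keeps writing `a`. -/
lemma descend {β : ℕ} (a : Bool) (t n : ℕ) (d : ℕ) (hd : t + 1 + d ≤ β)
    (h : ∀ i, t + 1 ≤ i → i ≤ t + 1 + d → rule (mk β a i) [a] = a) :
    (PL rule β a a t n).card ≤
      (lang (outM rule) (nxtM rule) (n + 1 + d) (mk β a (t + 1 + d), a)).card := by
  induction d with
  | zero =>
    rw [Nat.add_zero, Nat.add_zero, lang_step_down rule a a t (by omega) (h _ le_rfl (by omega)),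
      Finset.card_image_of_injective _ (fun a b h => (List.cons.inj h).2)]
  | succ d ih =>
    have ih' := ih (by omega) (fun i h1 h2 => h i h1 (by omega))
    refine le_trans ih' ?_
    have e1 : t + 1 + (d + 1) = (t + 1 + d) + 1 := by ring
    have e2 : n + 1 + (d + 1) = (n + 1 + d) + 1 := by ring
    have h1 := h (t + 1 + (d + 1)) (by omega) le_rfl
    rw [e1] at h1
    rw [e1, e2, lang_step_down rule a a (t + 1 + d) (by omega) h1,
      Finset.card_image_of_injective _ (fun a b h => (List.cons.inj h).2), PL]
    exact Finset.card_le_card Finset.subset_union_right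

/-- The largest state below `j` at which the rule leaves the label `a`. -/
lemma exists_cross {β : ℕ} (hv : ValidMinus β rule) (a : Bool) (j : ℕ) (hj : j ≤ β) (hj1 : 1 ≤ j)
    (h : rule (mk β a j) [a] = a) :
    ∃ t, t < j ∧ rule (mk β a t) [a] = !a ∧
      ∀ i, t + 1 ≤ i → i ≤ j → rule (mk β a i) [a] = a := by
  induction j with
  | zero => omega
  | succ j ih =>
    by_cases h0 : rule (mk β a j) [a] = a
    · rcases Nat.eq_zero_or_pos j with hz | hp
      · subst hz
        exfalso
        have := hv (mk β a 0) [a] (mk_sum β a 0 (by omega))
        rw [h0] at this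
        simp [mk] at this
      · obtain ⟨t, ht1, ht2, ht3⟩ := ih (by omega) hp h0
        refine ⟨t, by omega, ht2, ?_⟩
        intro i hi1 hi2
        by_cases hi : i ≤ j
        · exact ht3 i hi1 hi
        · have : i = j + 1 := by omega
          rw [this]; exact h
    · refine ⟨j, by omega, ?_, ?_⟩
      · cases hb : rule (mk β a j) [a] <;> cases a <;> simp_all
      · intro i hi1 hi2
        have : i = j + 1 := by omega
        rw [this]; exact h

theorem lower_minus (k : ℕ) (hv : ValidMinus (k + 1) rule) (n : ℕ) :
    ∀ (a : Bool) (t : ℕ), t + 1 ≤ k + 1 → rule (mk (k + 1) a (t + 1)) [a] = a →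
      rule (mk (k + 1) a t) [a] = !a → V k n ≤ (PL rule (k + 1) a a t n).card := by
  induction n using Nat.strong_induction_on with
  | _ n IH =>
  intro a t ht h1 h2
  by_cases hn : n ≤ k + 2
  · rw [V_small k n hn]
    refine le_trans (one_le_card (outM rule) (nxtM rule) n (mk (k + 1) a (t + 1), a)) ?_
    exact Finset.card_le_card Finset.subset_union_left
  · obtain ⟨q, rfl⟩ : ∃ q, n = q + 1 := ⟨n - 1, by omega⟩
    rw [V_rec k q (by omega)]
    have hdisj : Disjoint ((PL rule (k + 1) a a t q).image (fun w => a :: w))
        ((PL rule (k + 1) a (!a) t q).image (fun w => (!a) :: w)) := by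
      rw [Finset.disjoint_left]
      intro w hw hw'
      rw [Finset.mem_image] at hw hw'
      obtain ⟨v, _, rfl⟩ := hw
      obtain ⟨u, _, hu⟩ := hw'
      have := (List.cons.inj hu).1
      cases a <;> simp at this
    have hcard : (PL rule (k + 1) a a t (q + 1)).card =
        (PL rule (k + 1) a a t q).card + (PL rule (k + 1) a (!a) t q).card := by
      conv_lhs => rw [PL, lang_step_down rule a a t ht h1, lang_step_up rule a a t ht h2]
      rw [Finset.card_union_of_disjoint hdisj,
        Finset.card_image_of_injective _ (fun a b h => (List.cons.inj h).2),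
        Finset.card_image_of_injective _ (fun a b h => (List.cons.inj h).2)]
    rw [hcard]
    refine add_le_add (IH q (by omega) a t ht h1 h2) ?_
    -- the pair after a switch, seen from the other label
    have e1 : mk (k + 1) a t = mk (k + 1) (!a) (k + 1 - t - 1 + 1) := by
      rw [mk_not (k + 1) a t (by omega)]; congr 1; omega
    have e2 : mk (k + 1) a (t + 1) = mk (k + 1) (!a) (k + 1 - t - 1) := by
      rw [mk_not (k + 1) a (t + 1) ht]; congr 1
    by_cases hc : rule (mk (k + 1) (!a) (k + 1 - t - 1)) [!a] = !a
    · -- the rule keeps writing `!a`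
      have hpos : 1 ≤ k + 1 - t - 1 := by
        by_contra hcon
        have h0 : k + 1 - t - 1 = 0 := by omega
        have := hv (mk (k + 1) (!a) (k + 1 - t - 1)) [!a] (mk_sum _ _ _ (by omega))
        rw [hc, h0] at this
        simp [mk] at this
      obtain ⟨r, hr1, hr2, hr3⟩ := exists_cross rule hv (!a) (k + 1 - t - 1) (by omega) hpos hc
      obtain ⟨d, hd⟩ : ∃ d, k + 1 - t - 1 = r + 1 + d := ⟨k + 1 - t - 1 - (r + 1), by omega⟩
      have hdes := descend rule (β := k + 1) (!a) r (q - 1 - d) d (by omega)
        (fun i hi1 hi2 => hr3 i hi1 (by omega))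
      have hIH := IH (q - 1 - d) (by omega) (!a) r (by omega) (hr3 (r + 1) le_rfl (by omega)) hr2
      have e3 : q - 1 - d + 1 + d = q := by omega
      rw [e3, ← hd, ← e2] at hdes
      calc V k (q - k) ≤ V k (q - 1 - d) := V_mono k (by omega)
        _ ≤ _ := hIH
        _ ≤ _ := hdes
        _ ≤ _ := Finset.card_le_card Finset.subset_union_left
    · have hc' : rule (mk (k + 1) a (t + 1)) [!a] = a := by
        rw [e2]
        cases hb : rule (mk (k + 1) (!a) (k + 1 - t - 1)) [!a] <;> cases a <;> simp_all
      rcases Nat.eq_zero_or_pos k with hk | hk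
      · -- box of size one: the pair is again a crossing
        subst hk
        have ht0 : t = 0 := by omega
        subst ht0
        have h3 : rule (mk (0 + 1) (!a) (0 + 1)) [!a] = !a := by
          have := hv (mk (0 + 1) (!a) (0 + 1)) [!a] (mk_sum _ _ _ le_rfl)
          by_contra hcon
          have h4 : rule (mk (0 + 1) (!a) (0 + 1)) [!a] = a := by
            cases hb : rule (mk (0 + 1) (!a) (0 + 1)) [!a] <;> cases a <;> simp_all
          rw [h4] at this
          cases a <;> simp [mk] at this
        have h5 : rule (mk (0 + 1) (!a) 0) [!a] = !(!a) := by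
          rw [Bool.not_not]
          have e : mk (0 + 1) (!a) 0 = mk (0 + 1) a (0 + 1) := e2.symm
          rw [e]; exact hc'
        have := IH q (by omega) (!a) 0 (by omega) h3 h5
        have e4 : PL rule (0 + 1) (!a) (!a) 0 q = PL rule (0 + 1) a (!a) 0 q := by
          rw [PL, PL, Finset.union_comm]
          congr 1
          · have e : mk (0 + 1) (!a) 0 = mk (0 + 1) a (0 + 1) := e2.symm
            rw [e]
          · have e : mk (0 + 1) (!a) (0 + 1) = mk (0 + 1) a 0 := e1.symm
            rw [e]
        rw [← e4]
        simpa using this
      · -- the rule returns at once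
        obtain ⟨r, rfl⟩ : ∃ r, q = r + 1 := ⟨q - 1, by omega⟩
        have hIH := IH r (by omega) a t ht h1 h2
        have h6 := lang_step_down rule (n := r) a (!a) t ht hc'
        calc V k (r + 1 - k) ≤ V k r := V_mono k (by omega)
          _ ≤ _ := hIH
          _ = ((PL rule (k + 1) a a t r).image (fun w => a :: w)).card :=
              (Finset.card_image_of_injective _ (fun a b h => (List.cons.inj h).2)).symm
          _ = (lang (outM rule) (nxtM rule) (r + 1) (mk (k + 1) a (t + 1), !a)).card := by rw [h6]
          _ ≤ _ := Finset.card_le_card Finset.subset_union_left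

end Minus

lemma length_runMinus (π : ℕ) (rule : (Bool → ℕ) → List Bool → Bool) (s : Bool → ℕ)
    (m xs : List Bool) : (runMinus π rule s m xs).length = xs.length := by
  induction xs generalizing s m with
  | nil => rfl
  | cons x xs ih => simp only [runMinus, List.length_cons, ih]

lemma outputsMinus_finite (π β n : ℕ) (rule : (Bool → ℕ) → List Bool → Bool) :
    (outputsMinus π β n rule).Finite := by
  apply outputsPlus_finite_of_subset (n := n)
  rintro w ⟨c, xs, _, hxs, rfl⟩
  rw [length_runMinus, hxs]

/-- The rule that repeats the last output whenever possible. -/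
def persist (s : Bool → ℕ) (m : List Bool) : Bool :=
  match m with
  | [] => if 0 < s false then false else true
  | p :: _ => if 0 < s p then p else !p

lemma persist_valid (k : ℕ) : ValidMinus (k + 1) persist := by
  intro s m hs
  match m with
  | [] =>
    rw [persist]
    split_ifs with h
    · exact h
    · omega
  | p :: _ =>
    rw [persist]
    split_ifs with h
    · exact h
    · cases p <;> simp at h ⊢ <;> omega

lemma upper_minus_aux (k : ℕ) (xs : List Bool) (s : Bool → ℕ) (hs : s false + s true = k + 1)
    (p : Bool) (j : ℕ) (hj : j ≤ s p) : runMinus 1 persist s [p] xs ∈ W k xs.length p j := by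
  induction xs generalizing s p j with
  | nil => simp [runMinus, W]
  | cons x xs ih =>
    rw [runMinus]
    have e : (persist s [p] :: [p]).take 1 = [persist s [p]] := rfl
    rw [e, List.length_cons]
    have hsum := upd_sum s (persist s [p]) x hs (persist_valid k s [p] hs)
    by_cases h : 0 < s p
    · have hp : persist s [p] = p := by rw [persist, if_pos h]
      rw [hp] at hsum ⊢
      have hge : s p ≤ upd s p x p + 1 := by simp [upd]; omega
      cases j with
      | zero =>
        rw [W]
        exact Finset.mem_union_left _ (Finset.mem_image_of_mem _ (ih _ hsum p 0 (Nat.zero_le _)))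
      | succ j =>
        rw [W]
        exact Finset.mem_image_of_mem _ (ih _ hsum p j (by
          have : j ≤ upd s p x p := by omega
          exact this))
    · have hp : persist s [p] = !p := by rw [persist, if_neg h]
      rw [hp] at hsum ⊢
      have hj0 : j = 0 := by omega
      subst hj0
      have hge : k ≤ upd s (!p) x (!p) := by
        cases p <;> simp [upd] at h ⊢ <;> omega
      rw [W]
      exact Finset.mem_union_right _ (Finset.mem_image_of_mem _ (ih _ hsum (!p) k hge))

theorem NMinus_upper (k n : ℕ) : NMinus 1 (k + 1) n ≤ 2 * U k n := by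
  have hmem : (outputsMinus 1 (k + 1) n persist).ncard ∈
      {j | ∃ rule, ValidMinus (k + 1) rule ∧ j = (outputsMinus 1 (k + 1) n rule).ncard} :=
    ⟨_, persist_valid k, rfl⟩
  refine le_trans (Nat.sInf_le hmem) ?_
  have hsub : outputsMinus 1 (k + 1) n persist ⊆
      (↑(W k n false 0 ∪ W k n true 0) : Set (List Bool)) := by
    rintro w ⟨s, xs, hs, hxs, rfl⟩
    have key : runMinus 1 persist s [] xs ∈ W k xs.length (persist s []) 0 := by
      cases xs with
      | nil => simp [runMinus, W]
      | cons x xs =>
        rw [runMinus, List.length_cons]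
        have e : (persist s [] :: []).take 1 = [persist s []] := rfl
        rw [e, W]
        have hsum := upd_sum s (persist s []) x hs (persist_valid k s [] hs)
        exact Finset.mem_union_left _ (Finset.mem_image_of_mem _
          (upper_minus_aux k xs _ hsum _ 0 (Nat.zero_le _)))
    rw [hxs] at key
    rw [Finset.mem_coe, Finset.mem_union]
    cases hb : persist s []
    · rw [hb] at key; exact Or.inl key
    · rw [hb] at key; exact Or.inr key
  refine le_trans (Set.ncard_le_ncard hsub (Finset.finite_toSet _)) ?_
  rw [Set.ncard_coe_finset]
  refine le_trans (Finset.card_union_le _ _) ?_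
  have h1 := card_W k n false 0
  have h2 := card_W k n true 0
  rw [Nat.sub_zero] at h1 h2
  omega

theorem NMinus_lower (k n : ℕ) : V k (n - (k + 2)) ≤ NMinus 1 (k + 1) n := by
  rw [NMinus]
  apply le_csInf
  · exact ⟨_, persist, persist_valid k, rfl⟩
  · rintro _ ⟨rule, hv, rfl⟩
    have hfin := outputsMinus_finite 1 (k + 1) n rule
    by_cases hn : n ≤ k + 2
    · rw [V_small k _ (by omega)]
      rw [Nat.one_le_iff_ne_zero, Ne, Set.ncard_eq_zero hfin]
      apply Set.Nonempty.ne_empty
      exact ⟨_, mk (k + 1) false 0, List.replicate n false, mk_sum _ _ _ (by omega), by simp, rfl⟩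
    · -- start with all labels `false`
      have h0 : ∀ m, rule (mk (k + 1) false (k + 1)) m = false := by
        intro m
        have := hv (mk (k + 1) false (k + 1)) m (mk_sum _ _ _ le_rfl)
        by_contra hcon
        rw [Bool.not_eq_false] at hcon
        rw [hcon] at this
        simp [mk] at this
      obtain ⟨t, ht1, ht2, ht3⟩ := exists_cross rule hv false (k + 1) le_rfl (by omega) (h0 _)
      obtain ⟨d, hd⟩ : ∃ d, k + 1 = t + 1 + d := ⟨k - t, by omega⟩
      have hdes := descend rule (β := k + 1) false t (n - 1 - 1 - d) d (by omega)
        (fun i hi1 hi2 => ht3 i hi1 (by omega))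
      have hlow := lower_minus rule k hv (n - 1 - 1 - d) false t (by omega)
        (ht3 _ le_rfl (by omega)) ht2
      have e3 : n - 1 - 1 - d + 1 + d = n - 1 := by omega
      rw [e3, ← hd] at hdes
      have hsub : (↑((lang (outM rule) (nxtM rule) (n - 1)
          (mk (k + 1) false (k + 1), false)).image (fun w => false :: w)) : Set (List Bool)) ⊆
          outputsMinus 1 (k + 1) n rule := by
        intro w hw
        rw [Finset.mem_coe, Finset.mem_image] at hw
        obtain ⟨v, hv1, rfl⟩ := hw
        rw [mem_lang] at hv1
        obtain ⟨xs, hxs, rfl⟩ := hv1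
        refine ⟨mk (k + 1) false (k + 1), false :: xs, mk_sum _ _ _ le_rfl, ?_, ?_⟩
        · rw [List.length_cons, hxs]; omega
        · rw [runMinus, h0]
          have e : (false :: ([] : List Bool)).take 1 = [false] := rfl
          rw [e, run_eq_runMinus]
          have e2 := upd_same (mk (k + 1) false (k + 1)) false (by simp [mk])
          rw [show (fun i => mk (k + 1) false (k + 1) i - (if i = false then 1 else 0) +
            (if i = false then 1 else 0)) = mk (k + 1) false (k + 1) from e2]
      calc V k (n - (k + 2)) ≤ V k (n - 1 - 1 - d) := V_mono k (by omega)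
        _ ≤ _ := hlow
        _ ≤ _ := hdes
        _ = ((lang (outM rule) (nxtM rule) (n - 1)
          (mk (k + 1) false (k + 1), false)).image (fun w => false :: w)).card :=
            (Finset.card_image_of_injective _ (fun a b h => (List.cons.inj h).2)).symm
        _ ≤ _ := by
            rw [← Set.ncard_coe_finset]
            exact Set.ncard_le_ncard hsub hfin

/-! ### Growth rates -/

lemma exists_root (k : ℕ) : ∃ lam : ℝ, 1 ≤ lam ∧ lam ^ (k + 1) - lam ^ k - 1 = 0 := by
  have hc : ContinuousOn (fun x : ℝ => x ^ (k + 1) - x ^ k - 1) (Set.Icc 1 2) := by fun_prop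
  have h := intermediate_value_Icc (show (1 : ℝ) ≤ 2 by norm_num) hc
  have h0 : (0 : ℝ) ∈ Set.Icc ((1 : ℝ) ^ (k + 1) - 1 ^ k - 1) (2 ^ (k + 1) - 2 ^ k - 1) := by
    constructor
    · simp
    · have : (1 : ℝ) ≤ 2 ^ k := one_le_pow₀ (by norm_num)
      rw [pow_succ]; linarith
  obtain ⟨x, hx, hx2⟩ := h h0
  exact ⟨x, hx.1, hx2⟩

lemma V_ge (k : ℕ) (lam : ℝ) (h1 : 1 ≤ lam) (hl : lam ^ (k + 1) - lam ^ k - 1 = 0) (n : ℕ) :
    lam ^ n ≤ lam ^ (k + 2) * V k n := by
  induction n using Nat.strong_induction_on with
  | _ n IH =>
  by_cases hn : n ≤ k + 2
  · rw [V_small k n hn]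
    simpa using pow_le_pow_right₀ h1 hn
  · obtain ⟨q, rfl⟩ : ∃ q, n = q + 1 := ⟨n - 1, by omega⟩
    rw [V_rec k q (by omega)]
    have a1 := IH q (by omega)
    have a2 := IH (q - k) (by omega)
    have e : lam ^ (q + 1) = lam ^ q + lam ^ (q - k) := by
      obtain ⟨r, hr⟩ : ∃ r, q = r + k := ⟨q - k, by omega⟩
      have e1 : q - k = r := by omega
      rw [e1, hr]
      have : lam ^ (k + 1) = lam ^ k + 1 := by linarith
      calc lam ^ (r + k + 1) = lam ^ r * lam ^ (k + 1) := by ring
        _ = lam ^ r * (lam ^ k + 1) := by rw [this]
        _ = lam ^ (r + k) + lam ^ r := by ring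
    rw [e]
    push_cast
    linarith

lemma U_le (k : ℕ) (lam : ℝ) (h1 : 1 ≤ lam) (hl : lam ^ (k + 1) - lam ^ k - 1 = 0) (n : ℕ) :
    (U k n : ℝ) ≤ (k + 1) * lam ^ n := by
  have hsmall : ∀ n ≤ k, U k n ≤ n + 1 := by
    intro n
    induction n with
    | zero => intro _; simp [U]
    | succ n ih =>
      intro hn
      rw [U]
      have e : n - k = 0 := by omega
      rw [e]
      have := ih (by omega)
      have h0 : U k 0 = 1 := by rw [U]
      omega
  induction n using Nat.strong_induction_on with
  | _ n IH =>
  by_cases hn : n ≤ k
  · have h2 : ((U k n : ℕ) : ℝ) ≤ ((k + 1 : ℕ) : ℝ) := by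
      exact_mod_cast (le_trans (hsmall n hn) (by omega))
    have h3 : (1 : ℝ) ≤ lam ^ n := one_le_pow₀ h1
    push_cast at h2
    calc (U k n : ℝ) ≤ (k + 1) * 1 := by linarith
      _ ≤ (k + 1) * lam ^ n := by gcongr
  · obtain ⟨q, rfl⟩ : ∃ q, n = q + 1 := ⟨n - 1, by omega⟩
    rw [U]
    have a1 := IH q (by omega)
    have a2 := IH (q - k) (by omega)
    have e : lam ^ (q + 1) = lam ^ q + lam ^ (q - k) := by
      obtain ⟨r, hr⟩ : ∃ r, q = r + k := ⟨q - k, by omega⟩
      have e1 : q - k = r := by omega
      rw [e1, hr]
      have : lam ^ (k + 1) = lam ^ k + 1 := by linarith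
      calc lam ^ (r + k + 1) = lam ^ r * lam ^ (k + 1) := by ring
        _ = lam ^ r * (lam ^ k + 1) := by rw [this]
        _ = lam ^ (r + k) + lam ^ r := by ring
    rw [e]
    push_cast
    linarith

lemma tendsto_rate (N : ℕ → ℕ) (lam c C : ℝ) (hlam : 1 ≤ lam) (hc : 0 < c) (hC : 0 < C)
    (h1 : ∀ n, c * lam ^ n ≤ N n) (h2 : ∀ n, (N n : ℝ) ≤ C * lam ^ n) :
    Tendsto (fun n : ℕ => Real.logb 2 (N n) / n) atTop (𝓝 (Real.logb 2 lam)) := by
  have hl0 : 0 < lam := by linarith
  have t1 : Tendsto (fun n : ℕ => Real.logb 2 c / n + Real.logb 2 lam) atTop
      (𝓝 (0 + Real.logb 2 lam)) :=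
    (tendsto_const_div_atTop_nhds_zero_nat _).add tendsto_const_nhds
  have t2 : Tendsto (fun n : ℕ => Real.logb 2 C / n + Real.logb 2 lam) atTop
      (𝓝 (0 + Real.logb 2 lam)) :=
    (tendsto_const_div_atTop_nhds_zero_nat _).add tendsto_const_nhds
  rw [zero_add] at t1 t2
  refine tendsto_of_tendsto_of_tendsto_of_le_of_le' t1 t2 ?_ ?_
  · filter_upwards [eventually_gt_atTop 0] with n hn
    have hn' : (0 : ℝ) < n := by exact_mod_cast hn
    have hpos : 0 < c * lam ^ n := by positivity
    have h3 := Real.logb_le_logb_of_le (b := 2) (by norm_num) hpos (h1 n)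
    rw [Real.logb_mul hc.ne' (by positivity), Real.logb_pow] at h3
    rw [div_add' _ _ _ hn'.ne']
    gcongr
    linarith
  · filter_upwards [eventually_gt_atTop 0] with n hn
    have hn' : (0 : ℝ) < n := by exact_mod_cast hn
    have hpos : 0 < c * lam ^ n := by positivity
    have hNpos : (0 : ℝ) < N n := lt_of_lt_of_le hpos (h1 n)
    have h3 := Real.logb_le_logb_of_le (b := 2) (by norm_num) hNpos (h2 n)
    rw [Real.logb_mul hC.ne' (by positivity), Real.logb_pow] at h3
    rw [div_add' _ _ _ hn'.ne']
    gcongr
    linarith

/-- For every `β ≥ 2` the optimal rate `ω₂(0, β, 0)` of a box of size `β` with known entrance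
order and no memory equals the rate `v₂(1, β - 1, 0)` of a box of size `β - 1` with unknown
entrance order and memory one; both limits exist and equal `log₂ λ`, where `λ` is the positive
root of `λ^(β-1) - λ^(β-2) - 1 = 0`. -/
theorem result (β : ℕ) (hβ : 2 ≤ β) :
    ∃ lam : ℝ, 0 < lam ∧ lam ^ (β - 1) - lam ^ (β - 2) - 1 = 0 ∧
      Tendsto (fun n : ℕ => Real.logb 2 (NPlus 0 β n) / n) atTop (𝓝 (Real.logb 2 lam)) ∧
      Tendsto (fun n : ℕ => Real.logb 2 (NMinus 1 (β - 1) n) / n) atTop
        (𝓝 (Real.logb 2 lam)) := by
  obtain ⟨k, rfl⟩ : ∃ k, β = k + 2 := ⟨β - 2, by omega⟩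
  obtain ⟨lam, h1, hl⟩ := exists_root k
  have hl0 : 0 < lam := by linarith
  refine ⟨lam, hl0, ?_, ?_, ?_⟩
  · simpa using hl
  · apply tendsto_rate _ lam (1 / lam ^ (k + 2)) (2 * (k + 1)) h1 (by positivity) (by positivity)
    · intro n
      have h3 := V_ge k lam h1 hl n
      have h4 : (V k n : ℝ) ≤ NPlus 0 (k + 2) n := by exact_mod_cast NPlus_lower k n
      rw [one_div, inv_mul_le_iff₀ (by positivity)]
      calc lam ^ n ≤ lam ^ (k + 2) * V k n := h3
        _ ≤ _ := by gcongr
    · intro n
      have h3 := U_le k lam h1 hl n
      have h4 : ((NPlus 0 (k + 2) n : ℕ) : ℝ) ≤ ((2 * U k n : ℕ) : ℝ) := by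
        exact_mod_cast NPlus_upper k n
      push_cast at h4
      linarith
  · have e : k + 2 - 1 = k + 1 := rfl
    rw [e]
    apply tendsto_rate _ lam (1 / (lam ^ (k + 2) * lam ^ (k + 2))) (2 * (k + 1)) h1
      (by positivity) (by positivity)
    · intro n
      have h3 := V_ge k lam h1 hl (n - (k + 2))
      have h4 : (V k (n - (k + 2)) : ℝ) ≤ NMinus 1 (k + 1) n := by exact_mod_cast NMinus_lower k n
      have h5 : lam ^ n ≤ lam ^ (k + 2) * lam ^ (n - (k + 2)) := by
        rw [← pow_add]
        exact pow_le_pow_right₀ h1 (by omega)
      rw [one_div, inv_mul_le_iff₀ (by positivity)]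
      calc lam ^ n ≤ lam ^ (k + 2) * lam ^ (n - (k + 2)) := h5
        _ ≤ lam ^ (k + 2) * (lam ^ (k + 2) * V k (n - (k + 2))) := by gcongr
        _ = lam ^ (k + 2) * lam ^ (k + 2) * V k (n - (k + 2)) := by ring
        _ ≤ _ := by gcongr
    · intro n
      have h3 := U_le k lam h1 hl n
      have h4 : ((NMinus 1 (k + 1) n : ℕ) : ℝ) ≤ ((2 * U k n : ℕ) : ℝ) := by
        exact_mod_cast NMinus_upper k n
      push_cast at h4
      linarith

end Pool.Agent.Results.MP_8dea01_co.OrderKnowledge
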